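import Pool.Agent.Lib.MP_b1a3a4_al.MVS.HO.Iface

/-!
# UNIV (10.34): the universal labelling of the Cayley complex
-/

set_option linter.all false

namespace Pool.Agent.Lib.MP_b1a3a4_al.MVS.HO.H39

section paths

variable {G : Type} [Group G] {r : ℕ} {φ : FreeGroup (Fin r) →* G} {R : Set (FreeGroup (Fin r))}
  {Z : Set G} {g : G}

lemma wval_nil : wval φ ([] : List (Fin r × Bool)) = 1 := by
  unfold wval
  rw [show FreeGroup.mk ([] : List (Fin r × Bool)) = 1 from rfl, map_one]

lemma wval_append (u v : List (Fin r × Bool)) : wval φ (u ++ v) = wval φ u * wval φ v := by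
  unfold wval
  rw [← FreeGroup.mul_mk, map_mul]

lemma wval_invRev (u : List (Fin r × Bool)) : wval φ (FreeGroup.invRev u) = (wval φ u)⁻¹ := by
  unfold wval
  rw [← FreeGroup.inv_mk, map_inv]

lemma invRev_single (x : Fin r × Bool) : FreeGroup.invRev [x] = [(x.1, !x.2)] := rfl

lemma wval_single_inv (x : Fin r × Bool) : wval φ [(x.1, !x.2)] = (wval φ [x])⁻¹ := by
  rw [← invRev_single, wval_invRev]

lemma pathIn_start {w : List (Fin r × Bool)} (h : PathIn φ Z g w) : g ∈ Z := by
  have := h [] List.nil_prefix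
  rwa [wval_nil, mul_one] at this

lemma pathIn_end {w : List (Fin r × Bool)} (h : PathIn φ Z g w) : g * wval φ w ∈ Z :=
  h w (List.prefix_refl _)

lemma pathIn_nil (h : g ∈ Z) : PathIn φ Z g [] := by
  intro u hu
  have : u = [] := by simpa using hu
  subst this
  rwa [wval_nil, mul_one]

lemma pathIn_append {u v : List (Fin r × Bool)} :
    PathIn φ Z g (u ++ v) ↔ PathIn φ Z g u ∧ PathIn φ Z (g * wval φ u) v := by
  constructor
  · intro h
    refine ⟨fun t ht => h t (ht.trans (List.prefix_append _ _)), fun t ht => ?_⟩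
    have := h (u ++ t) ((List.prefix_append_right_inj u).2 ht)
    rwa [wval_append, ← mul_assoc] at this
  · rintro ⟨h1, h2⟩ t ht
    rcases List.prefix_or_prefix_of_prefix ht (List.prefix_append u v) with h | h
    · exact h1 t h
    · obtain ⟨s, rfl⟩ := h
      have hs := (List.prefix_append_right_inj u).1 ht
      have := h2 s hs
      rwa [wval_append, ← mul_assoc]

lemma pathIn_single {x : Fin r × Bool} (h1 : g ∈ Z) (h2 : g * wval φ [x] ∈ Z) :
    PathIn φ Z g [x] := by
  intro u hu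
  rcases u with _ | ⟨y, u⟩
  · rwa [wval_nil, mul_one]
  · obtain ⟨rfl, hu'⟩ := List.cons_prefix_cons.1 hu
    have : u = [] := by simpa using hu'
    subst this
    exact h2

lemma pathIn_invRev {w : List (Fin r × Bool)} (h : PathIn φ Z g w) :
    PathIn φ Z (g * wval φ w) (FreeGroup.invRev w) := by
  induction w generalizing g with
  | nil =>
    rw [wval_nil, mul_one]
    exact pathIn_nil (pathIn_start h)
  | cons x w ih =>
    have h' : PathIn φ Z g ([x] ++ w) := h
    obtain ⟨h1, h2⟩ := pathIn_append.1 h'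
    have h3 := ih h2
    rw [FreeGroup.invRev_cons]
    have e : wval φ (x :: w) = wval φ [x] * wval φ w := by
      rw [← wval_append]; rfl
    rw [e, ← mul_assoc]
    refine pathIn_append.2 ⟨h3, ?_⟩
    rw [wval_invRev, mul_inv_cancel_right, invRev_single]
    refine pathIn_single (pathIn_end h1) ?_
    rw [wval_single_inv, mul_inv_cancel_right]
    exact pathIn_start h1

/-! ## Homotopies -/

lemma elem_props (hR : ∀ ρ ∈ R, φ ρ = 1) {a b : List (Fin r × Bool)} (h : Elem φ R Z g a b) :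
    wval φ a = wval φ b ∧ PathIn φ Z g a ∧ PathIn φ Z g b := by
  rcases h with ⟨u, v, x, hp⟩ | ⟨u, v, ρ, hρ, hp⟩
  · have hx : wval φ [x, (x.1, !x.2)] = 1 := by
      rw [show [x, (x.1, !x.2)] = [x] ++ [(x.1, !x.2)] from rfl, wval_append, wval_single_inv,
        mul_inv_cancel]
    have e : wval φ (u ++ [x, (x.1, !x.2)]) = wval φ u := by rw [wval_append, hx, mul_one]
    refine ⟨by rw [wval_append, e, wval_append], hp, ?_⟩
    obtain ⟨h1, h2⟩ := pathIn_append.1 hp
    rw [e] at h2
    exact pathIn_append.2 ⟨(pathIn_append.1 h1).1, h2⟩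
  · have hx : wval φ ρ.toWord = 1 := by
      unfold wval
      rw [FreeGroup.mk_toWord]
      exact hR ρ hρ
    have e : wval φ (u ++ ρ.toWord) = wval φ u := by rw [wval_append, hx, mul_one]
    refine ⟨by rw [wval_append, e, wval_append], hp, ?_⟩
    obtain ⟨h1, h2⟩ := pathIn_append.1 hp
    rw [e] at h2
    exact pathIn_append.2 ⟨(pathIn_append.1 h1).1, h2⟩

lemma hom_wval (hR : ∀ ρ ∈ R, φ ρ = 1) {a b : List (Fin r × Bool)} (h : Homotopic φ R Z g a b) :
    wval φ a = wval φ b := by
  induction h with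
  | rel a b h => exact (elem_props hR h).1
  | refl a => rfl
  | symm a b _ ih => exact ih.symm
  | trans a b c _ _ ih1 ih2 => exact ih1.trans ih2

lemma hom_path (hR : ∀ ρ ∈ R, φ ρ = 1) {a b : List (Fin r × Bool)} (h : Homotopic φ R Z g a b) :
    PathIn φ Z g a ↔ PathIn φ Z g b := by
  induction h with
  | rel a b h => exact ⟨fun _ => (elem_props hR h).2.2, fun _ => (elem_props hR h).2.1⟩
  | refl a => exact Iff.rfl
  | symm a b _ ih => exact ih.symm
  | trans a b c _ _ ih1 ih2 => exact ih1.trans ih2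

lemma hom_append (hR : ∀ ρ ∈ R, φ ρ = 1) {a b : List (Fin r × Bool)}
    (h : Homotopic φ R Z g a b) (v : List (Fin r × Bool)) (hv : PathIn φ Z (g * wval φ a) v) :
    Homotopic φ R Z g (a ++ v) (b ++ v) := by
  induction h with
  | rel a b h =>
    have hp := pathIn_append.2 ⟨(elem_props hR h).2.1, hv⟩
    rcases h with ⟨u, t, x, _⟩ | ⟨u, t, ρ, hρ, _⟩
    · refine Relation.EqvGen.rel _ _ ?_
      rw [List.append_assoc, List.append_assoc u t v]
      refine Elem.back u (t ++ v) x ?_
      rwa [List.append_assoc] at hp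
    · refine Relation.EqvGen.rel _ _ ?_
      rw [List.append_assoc, List.append_assoc u t v]
      refine Elem.cell u (t ++ v) ρ hρ ?_
      rwa [List.append_assoc] at hp
  | refl a => exact Relation.EqvGen.refl _
  | symm a b hab ih =>
    refine Relation.EqvGen.symm _ _ (ih ?_)
    rwa [hom_wval hR hab]
  | trans a b c hab _ ih1 ih2 =>
    refine Relation.EqvGen.trans _ _ _ (ih1 hv) (ih2 ?_)
    rwa [← hom_wval hR hab]

/-- cancellation of `a a⁻¹` -/
lemma hom_cancel (hR : ∀ ρ ∈ R, φ ρ = 1) (a u v : List (Fin r × Bool))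
    (h : PathIn φ Z g (u ++ a ++ FreeGroup.invRev a ++ v)) :
    Homotopic φ R Z g (u ++ a ++ FreeGroup.invRev a ++ v) (u ++ v) := by
  induction a generalizing u v with
  | nil =>
    simp only [FreeGroup.invRev_empty, List.append_nil]
    exact Relation.EqvGen.refl _
  | cons x a ih =>
    have e : u ++ (x :: a) ++ FreeGroup.invRev (x :: a) ++ v =
        (u ++ [x]) ++ a ++ FreeGroup.invRev a ++ ([(x.1, !x.2)] ++ v) := by
      rw [FreeGroup.invRev_cons, invRev_single]
      simp
    rw [e] at h ⊢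
    have h1 := ih _ _ h
    have h2 := (hom_path hR h1).1 h
    refine Relation.EqvGen.trans _ _ _ h1 (Relation.EqvGen.rel _ _ ?_)
    have e2 : u ++ [x] ++ ([(x.1, !x.2)] ++ v) = u ++ [x, (x.1, !x.2)] ++ v := by simp
    rw [e2] at h2 ⊢
    exact Elem.back u v x h2

/-! ## The set of classes of loops -/

/-- closed paths at `g` in `Z` -/
def Lp (φ : FreeGroup (Fin r) →* G) (Z : Set G) (g : G) : Type :=
  {w : List (Fin r × Bool) // wval φ w = 1 ∧ PathIn φ Z g w}

/-- homotopy of closed paths -/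
def lpSetoid (φ : FreeGroup (Fin r) →* G) (R : Set (FreeGroup (Fin r))) (Z : Set G) (g : G) :
    Setoid (Lp φ Z g) where
  r a b := Homotopic φ R Z g a.1 b.1
  iseqv := ⟨fun _ => Relation.EqvGen.refl _, fun h => Relation.EqvGen.symm _ _ h,
    fun h h' => Relation.EqvGen.trans _ _ _ h h'⟩

/-- homotopy classes of closed paths -/
abbrev Cl (φ : FreeGroup (Fin r) →* G) (R : Set (FreeGroup (Fin r))) (Z : Set G) (g : G) : Type :=
  Quotient (lpSetoid φ R Z g)

/-- composition of closed paths -/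
def Lp.app (a b : Lp φ Z g) : Lp φ Z g :=
  ⟨a.1 ++ b.1, by rw [wval_append, a.2.1, b.2.1, mul_one],
    pathIn_append.2 ⟨a.2.2, by rw [a.2.1, mul_one]; exact b.2.2⟩⟩

/-- inverse of a closed path -/
def Lp.inv (a : Lp φ Z g) : Lp φ Z g :=
  ⟨FreeGroup.invRev a.1, by rw [wval_invRev, a.2.1, inv_one], by
    have := pathIn_invRev a.2.2
    rwa [a.2.1, mul_one] at this⟩

lemma app_congr (hR : ∀ ρ ∈ R, φ ρ = 1) (ℓ a b : Lp φ Z g) (h : (lpSetoid φ R Z g).r a b) :
    (lpSetoid φ R Z g).r (a.app ℓ) (b.app ℓ) := by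
  refine hom_append hR h ℓ.1 ?_
  rw [a.2.1, mul_one]
  exact ℓ.2.2

lemma app_inv (hR : ∀ ρ ∈ R, φ ρ = 1) (a ℓ : Lp φ Z g) :
    (lpSetoid φ R Z g).r ((a.app ℓ).app ℓ.inv) a := by
  have h := hom_cancel (R := R) (Z := Z) (g := g) hR ℓ.1 a.1 [] (by
    rw [List.append_nil]
    exact ((a.app ℓ).app ℓ.inv).2.2)
  rw [List.append_nil, List.append_nil] at h
  exact h

lemma inv_inv (ℓ : Lp φ Z g) : ℓ.inv.inv = ℓ :=
  Subtype.ext FreeGroup.invRev_invRev

/-- right multiplication by a closed path -/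
def rmul (hR : ∀ ρ ∈ R, φ ρ = 1) (ℓ : Lp φ Z g) : Equiv.Perm (Cl φ R Z g) where
  toFun := Quotient.map (fun a => a.app ℓ) (fun a b h => app_congr hR ℓ a b h)
  invFun := Quotient.map (fun a => a.app ℓ.inv) (fun a b h => app_congr hR ℓ.inv a b h)
  left_inv := by
    rintro ⟨a⟩
    exact Quotient.sound (app_inv hR a ℓ)
  right_inv := by
    rintro ⟨a⟩
    refine Quotient.sound ?_
    have := app_inv (R := R) hR a ℓ.inv
    rw [inv_inv] at this
    exact this

/-- vertices in the component of `g` -/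
def InC (φ : FreeGroup (Fin r) →* G) (Z : Set G) (g v : G) : Prop :=
  ∃ p, g * wval φ p = v ∧ PathIn φ Z g p

open Classical in
/-- the base paths -/
noncomputable def bp (φ : FreeGroup (Fin r) →* G) (Z : Set G) (g v : G) : List (Fin r × Bool) :=
  if v = g then [] else if h : InC φ Z g v then h.choose else []

lemma bp_spec {v : G} (h : InC φ Z g v) :
    g * wval φ (bp φ Z g v) = v ∧ PathIn φ Z g (bp φ Z g v) := by
  unfold bp
  by_cases h1 : v = g
  · rw [if_pos h1]
    obtain ⟨p, hp⟩ := h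
    exact ⟨by rw [wval_nil, mul_one, h1], pathIn_nil (pathIn_start hp.2)⟩
  · rw [if_neg h1, dif_pos h]
    exact h.choose_spec

lemma bp_self : bp φ Z g g = [] := by
  unfold bp
  rw [if_pos rfl]

/-- paths in the component, closed up -/
lemma closed_up {v : G} {w : List (Fin r × Bool)} (h : InC φ Z g v) (hw : PathIn φ Z v w)
    (h' : InC φ Z g (v * wval φ w)) :
    wval φ (bp φ Z g v ++ w ++ FreeGroup.invRev (bp φ Z g (v * wval φ w))) = 1 ∧
    PathIn φ Z g (bp φ Z g v ++ w ++ FreeGroup.invRev (bp φ Z g (v * wval φ w))) := by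
  obtain ⟨h1, h2⟩ := bp_spec h
  obtain ⟨h3, h4⟩ := bp_spec h'
  constructor
  · rw [wval_append, wval_append, wval_invRev]
    have h5 : wval φ (bp φ Z g v) = g⁻¹ * v := by
      rw [eq_inv_mul_iff_mul_eq]; exact h1
    have h6 : wval φ (bp φ Z g (v * wval φ w)) = g⁻¹ * (v * wval φ w) := by
      rw [eq_inv_mul_iff_mul_eq]; exact h3
    rw [h5, h6]
    group
  · refine pathIn_append.2 ⟨pathIn_append.2 ⟨h2, by rw [h1]; exact hw⟩, ?_⟩
    have h5 := pathIn_invRev h4
    rw [h3] at h5
    rw [wval_append, ← mul_assoc, h1]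
    exact h5

lemma inC_step {v : G} {w : List (Fin r × Bool)} (h : InC φ Z g v) (hw : PathIn φ Z v w) :
    InC φ Z g (v * wval φ w) := by
  obtain ⟨p, hp1, hp2⟩ := h
  refine ⟨p ++ w, by rw [wval_append, ← mul_assoc, hp1], pathIn_append.2 ⟨hp2, ?_⟩⟩
  rw [hp1]
  exact hw

/-- the closed path for an edge -/
noncomputable def edgeLp (x : Fin r × Bool) (v : G) (h : InC φ Z g v)
    (h' : InC φ Z g (v * wval φ [x])) : Lp φ Z g :=
  ⟨bp φ Z g v ++ [x] ++ FreeGroup.invRev (bp φ Z g (v * wval φ [x])),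
    closed_up h (pathIn_single
      (by obtain ⟨p, hp1, hp2⟩ := h; rw [← hp1]; exact pathIn_end hp2)
      (by obtain ⟨p, hp1, hp2⟩ := h'; rw [← hp1]; exact pathIn_end hp2)) h'⟩

open Classical in
/-- the universal labelling -/
noncomputable def lab (hR : ∀ ρ ∈ R, φ ρ = 1) (Z : Set G) (g : G) (v : G) (x : Fin r × Bool) :
    (Equiv.Perm (Cl φ R Z g))ᵐᵒᵖ :=
  if h : InC φ Z g v ∧ InC φ Z g (v * wval φ [x]) then
    MulOpposite.op (rmul hR (edgeLp x v h.1 h.2)) else 1

lemma lab_pos (hR : ∀ ρ ∈ R, φ ρ = 1) {v : G} {x : Fin r × Bool} (h : InC φ Z g v)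
    (h' : InC φ Z g (v * wval φ [x])) (a : Lp φ Z g) :
    (lab hR Z g v x).unop (Quotient.mk _ a) =
      Quotient.mk (lpSetoid φ R Z g) (a.app (edgeLp x v h h')) := by
  unfold lab
  rw [dif_pos ⟨h, h'⟩]
  rfl

/-- the main computation -/
lemma lhol_lab (hR : ∀ ρ ∈ R, φ ρ = 1) (w : List (Fin r × Bool)) :
    ∀ {v : G} (h : InC φ Z g v) (hw : PathIn φ Z v w) (a : Lp φ Z g),
    (lhol φ (lab hR Z g) v w).unop (Quotient.mk _ a) =
      Quotient.mk (lpSetoid φ R Z g) (a.app ⟨_, closed_up h hw (inC_step h hw)⟩) := by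
  induction w with
  | nil =>
    intro v h hw a
    simp only [lhol, MulOpposite.unop_one, Equiv.Perm.coe_one, id_eq]
    refine Quotient.sound ?_
    refine Relation.EqvGen.symm _ _ ?_
    have h1 := (a.app ⟨_, closed_up h hw (inC_step h hw)⟩).2.2
    have e : (a.app ⟨_, closed_up h hw (inC_step h hw)⟩).1 =
        a.1 ++ bp φ Z g v ++ FreeGroup.invRev (bp φ Z g v) ++ [] := by
      show a.1 ++ (bp φ Z g v ++ [] ++ FreeGroup.invRev (bp φ Z g (v * wval φ []))) = _
      rw [wval_nil, mul_one]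
      simp
    rw [e] at h1 ⊢
    have h2 := hom_cancel (R := R) hR _ _ _ h1
    rwa [List.append_nil a.1] at h2
  | cons x w ih =>
    intro v h hw a
    have hw' : PathIn φ Z v ([x] ++ w) := hw
    obtain ⟨h1, h2⟩ := pathIn_append.1 hw'
    have h3 : InC φ Z g (v * wval φ [x]) := inC_step h h1
    simp only [lhol, MulOpposite.unop_mul, Equiv.Perm.coe_mul, Function.comp_apply]
    rw [lab_pos hR h h3, ih h3 h2]
    refine Quotient.sound ?_
    have ev : v * wval φ [x] * wval φ w = v * wval φ (x :: w) := by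
      rw [mul_assoc, ← wval_append]; rfl
    have h4 := ((a.app (edgeLp x v h h3)).app ⟨_, closed_up h3 h2 (inC_step h3 h2)⟩).2.2
    have e : ((a.app (edgeLp x v h h3)).app ⟨_, closed_up h3 h2 (inC_step h3 h2)⟩).1 =
        (a.1 ++ bp φ Z g v ++ [x]) ++ FreeGroup.invRev (bp φ Z g (v * wval φ [x])) ++
          FreeGroup.invRev (FreeGroup.invRev (bp φ Z g (v * wval φ [x]))) ++
          (w ++ FreeGroup.invRev (bp φ Z g (v * wval φ (x :: w)))) := by
      show (a.1 ++ (bp φ Z g v ++ [x] ++ FreeGroup.invRev (bp φ Z g (v * wval φ [x])))) ++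
        (bp φ Z g (v * wval φ [x]) ++ w ++
          FreeGroup.invRev (bp φ Z g (v * wval φ [x] * wval φ w))) = _
      rw [ev, FreeGroup.invRev_invRev]
      simp
    have e' : (a.app ⟨_, closed_up h hw (inC_step h hw)⟩).1 =
        (a.1 ++ bp φ Z g v ++ [x]) ++
          (w ++ FreeGroup.invRev (bp φ Z g (v * wval φ (x :: w)))) := by
      show a.1 ++ (bp φ Z g v ++ (x :: w) ++
        FreeGroup.invRev (bp φ Z g (v * wval φ (x :: w)))) = _
      simp
    show Homotopic φ R Z g _ _
    rw [e] at h4 ⊢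
    rw [e']
    exact hom_cancel (R := R) hR _ _ _ h4

lemma lhol_out (hR : ∀ ρ ∈ R, φ ρ = 1) (w : List (Fin r × Bool)) :
    ∀ {v : G} (h : ¬ InC φ Z g v) (hw : PathIn φ Z v w), lhol φ (lab hR Z g) v w = 1 := by
  induction w with
  | nil => intro v h hw; rfl
  | cons x w ih =>
    intro v h hw
    have hw' : PathIn φ Z v ([x] ++ w) := hw
    obtain ⟨h1, h2⟩ := pathIn_append.1 hw'
    have h3 : ¬ InC φ Z g (v * wval φ [x]) := by
      intro h3
      apply h
      have h4 := inC_step h3 (pathIn_invRev h1)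
      rwa [wval_invRev, mul_inv_cancel_right] at h4
    simp only [lhol]
    rw [ih h3 h2, mul_one]
    unfold lab
    rw [dif_neg (fun h' => h h'.1)]

end paths

/-- UNIV (10.34) -/
theorem univ : UnivStatement := by
  intro G _ r φ R Z g hR
  refine ⟨(Equiv.Perm (Cl φ R Z g))ᵐᵒᵖ, inferInstance, lab hR Z g, ?_, ?_, ?_⟩
  · intro v x hv hx
    have e : lab hR Z g v x * lab hR Z g (v * wval φ [x]) (x.1, !x.2) =
        lhol φ (lab hR Z g) v [x, (x.1, !x.2)] := by
      simp only [lhol, mul_one]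
    rw [e]
    have hp : PathIn φ Z v [x, (x.1, !x.2)] := by
      have : PathIn φ Z v ([x] ++ [(x.1, !x.2)]) := by
        refine pathIn_append.2 ⟨pathIn_single hv hx, pathIn_single hx ?_⟩
        rw [wval_single_inv, mul_inv_cancel_right]
        exact hv
      exact this
    by_cases h : InC φ Z g v
    · apply MulOpposite.unop_injective
      apply Equiv.ext
      rintro ⟨a⟩
      rw [show (Quot.mk _ a : Cl φ R Z g) = Quotient.mk _ a from rfl, lhol_lab hR _ h hp a]
      simp only [MulOpposite.unop_one, Equiv.Perm.coe_one, id_eq]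
      refine Quotient.sound ?_
      have hx1 : wval φ [x, (x.1, !x.2)] = 1 := by
        rw [show [x, (x.1, !x.2)] = [x] ++ [(x.1, !x.2)] from rfl, wval_append, wval_single_inv,
          mul_inv_cancel]
      have h4 := (a.app ⟨_, closed_up h hp (inC_step h hp)⟩).2.2
      have e : (a.app ⟨_, closed_up h hp (inC_step h hp)⟩).1 =
          a.1 ++ (bp φ Z g v ++ [x]) ++ FreeGroup.invRev (bp φ Z g v ++ [x]) ++ [] := by
        show a.1 ++ (bp φ Z g v ++ [x, (x.1, !x.2)] ++
          FreeGroup.invRev (bp φ Z g (v * wval φ [x, (x.1, !x.2)]))) = _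
        rw [hx1, mul_one, FreeGroup.invRev_append, invRev_single]
        simp
      show Homotopic φ R Z g _ _
      rw [e] at h4 ⊢
      have h5 := hom_cancel (R := R) hR _ _ _ h4
      rwa [List.append_nil a.1] at h5
    · exact lhol_out hR _ h hp
  · intro v ρ hρ hp
    by_cases h : InC φ Z g v
    · apply MulOpposite.unop_injective
      apply Equiv.ext
      rintro ⟨a⟩
      rw [show (Quot.mk _ a : Cl φ R Z g) = Quotient.mk _ a from rfl, lhol_lab hR _ h hp a]
      simp only [MulOpposite.unop_one, Equiv.Perm.coe_one, id_eq]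
      refine Quotient.sound ?_
      have hx1 : wval φ ρ.toWord = 1 := by
        unfold wval
        rw [FreeGroup.mk_toWord]
        exact hR ρ hρ
      have h4 := (a.app ⟨_, closed_up h hp (inC_step h hp)⟩).2.2
      have e : (a.app ⟨_, closed_up h hp (inC_step h hp)⟩).1 =
          (a.1 ++ bp φ Z g v) ++ ρ.toWord ++ FreeGroup.invRev (bp φ Z g v) := by
        show a.1 ++ (bp φ Z g v ++ ρ.toWord ++
          FreeGroup.invRev (bp φ Z g (v * wval φ ρ.toWord))) = _
        rw [hx1, mul_one]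
        simp
      show Homotopic φ R Z g _ _
      rw [e] at h4 ⊢
      have h5 : Homotopic φ R Z g ((a.1 ++ bp φ Z g v) ++ ρ.toWord ++
          FreeGroup.invRev (bp φ Z g v)) ((a.1 ++ bp φ Z g v) ++ FreeGroup.invRev (bp φ Z g v)) :=
        Relation.EqvGen.rel _ _ (Elem.cell _ _ ρ hρ h4)
      have h6 := (hom_path hR h5).1 h4
      refine Relation.EqvGen.trans _ _ _ h5 ?_
      have h7 := hom_cancel (R := R) (Z := Z) (g := g) hR (bp φ Z g v) a.1 []
        (by rw [List.append_nil]; exact h6)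
      rwa [List.append_nil, List.append_nil] at h7
    · exact lhol_out hR _ h hp
  · intro w hw hp h1
    have hg : g ∈ Z := pathIn_start hp
    have h : InC φ Z g g := ⟨[], by rw [wval_nil, mul_one], pathIn_nil hg⟩
    have h2 := lhol_lab (R := R) hR w h hp ⟨[], wval_nil, pathIn_nil hg⟩
    rw [h1] at h2
    simp only [MulOpposite.unop_one, Equiv.Perm.coe_one, id_eq] at h2
    have h3 : Homotopic φ R Z g ([] : List (Fin r × Bool))
        ([] ++ (bp φ Z g g ++ w ++ FreeGroup.invRev (bp φ Z g (g * wval φ w)))) :=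
      Quotient.exact h2
    rw [hw, mul_one, bp_self, FreeGroup.invRev_empty] at h3
    simp only [List.nil_append, List.append_nil] at h3
    exact Relation.EqvGen.symm _ _ h3

end Pool.Agent.Lib.MP_b1a3a4_al.MVS.HO.H39
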